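import Pool.Agent.J4H64.MO.Def
import Pool.Agent.J4H42.MC.Ind
import Pool.Agent.J4H52.MC.Low

set_option autoImplicit false

/-! Monotone programs do not tell graphs of seeds from random sets without graphs. -/

namespace Pool.Agent.J4H64.MO

open Finset Filter Pool.Agent.H560R2 Pool.Agent.H520R2 Pool.Agent.J4H64.MC Pool.Agent.J4H64.MN
  Pool.Agent.J4H52.MC

section Gen

variable {ι : Type} [Fintype ι] [DecidableEq ι]

open Classical in
theorem adv_gen2 {W : Type} [Fintype W] [Nonempty W] (gr : W → Finset ι) (H : Set ι → Prop)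
    (B lam Q e c : ℕ) [NeZero Q] (he : 2 * e < 2 ^ lam) (hc : 1 ≤ c)
    (hB : ((univ : Finset (Finset ι)).filter (fun Y => Y.card ≤ 2 * e)).card * 4 ^ e ≤ 4 ^ B)
    (hind : ∀ Y : Finset ι, 1 ≤ Y.card → Y.card ≤ 2 * e →
      {w : W | Y ⊆ gr w}.ncard * (4 * (64 * Q)) ^ Y.card * c ≤ Fintype.card W)
    (hhas : {ω : Fin B → Fin lam → ι → Fin Q | H (WB ω : Set ι)}.ncard * 2 ≤
      ((Q ^ Fintype.card ι) ^ lam) ^ B) :
    ∃ (Ng : Type) (_ : Fintype Ng) (_ : Nonempty Ng) (neg : Ng → Set ι),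
      (∀ p, ¬ H (neg p)) ∧
      ∀ (Bs : Set (Set ι → Bool)),
        (∀ b ∈ Bs, ∃ T : Finset ι, T.card ≤ e ∧ LeafOn T (fun x => b x = true)) →
        ∀ (s : ℕ) (g : Set ι → Bool), MComp Bs s g → 4 * c * (s + 1) ≤ 4 ^ e →
          ((univ.filter (fun w => g (gr w : Set ι) = true)).card : ℚ) * Fintype.card Ng *
            (2 * c) ≤
            ((univ.filter (fun p => g (neg p) = true)).card : ℚ) *
              Fintype.card W * (2 * c) + Fintype.card Ng * Fintype.card W := by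
  obtain ⟨Om, hOm⟩ : ∃ Om, Om = ((Q ^ Fintype.card ι) ^ lam) ^ B := ⟨_, rfl⟩
  have hQpos : 0 < Q := Nat.pos_of_ne_zero (NeZero.ne Q)
  have hOmpos : 0 < Om := by rw [hOm]; positivity
  rw [← hOm] at hhas
  let Pt : Type := {ω : Fin B → Fin lam → ι → Fin Q // ¬ H (WB ω : Set ι)}
  have hcardΩ : Fintype.card (Fin B → Fin lam → ι → Fin Q) = Om := by
    rw [Fintype.card_fun, Fintype.card_fun, Fintype.card_fun, Fintype.card_fin,
      Fintype.card_fin, Fintype.card_fin, hOm]
  have hcardPt : Om ≤ 2 * Fintype.card Pt := by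
    have h1 : Fintype.card Pt + {ω : Fin B → Fin lam → ι → Fin Q |
        H (WB ω : Set ι)}.ncard = Om := by
      have h2 := Set.ncard_add_ncard_compl {ω : Fin B → Fin lam → ι → Fin Q |
        H (WB ω : Set ι)}
      rw [Nat.card_eq_fintype_card, hcardΩ] at h2
      have h3 : Fintype.card Pt = ({ω : Fin B → Fin lam → ι → Fin Q |
          H (WB ω : Set ι)}ᶜ).ncard := by
        rw [← Nat.card_eq_fintype_card, ← Nat.card_coe_set_eq]
        rfl
      omega
    omega
  have hPtpos : 0 < Fintype.card Pt := by omega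
  refine ⟨Pt, inferInstance, Fintype.card_pos_iff.mp hPtpos, fun p => (WB p.1 : Set ι), ?_, ?_⟩
  · intro p
    exact p.2
  intro Bs hBs s g hg hs
  obtain ⟨L0, hL1, hL2, hL3⟩ := hg
  obtain ⟨T, op, a, b, val, o, hTs, htop, hval, ho⟩ :=
    mprog_circ (s := s + 1) (by omega) (⟨L0, hL1, by omega, hL3⟩ : MComp Bs (s + 1) g)
  have hleaf : ∀ l : {b // b ∈ Bs}, ∃ T : Finset ι, T.card ≤ e ∧
      LeafOn T (fun x => l.1 x = true) := fun l => hBs l.1 l.2
  have havg := spread_avg (Q := Q) (ι := ι)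
    (fun (l : {b // b ∈ Bs}) x => l.1 x = true) B lam (64 * Q) e c le_rfl hc
    he hB hleaf (Pt := W) gr hind op a b htop val hval o
  obtain ⟨P, hP⟩ : ∃ P, P = Fintype.card W := ⟨_, rfl⟩
  have hPpos : 0 < P := by rw [hP]; exact Fintype.card_pos
  rw [← hP] at havg ⊢
  -- counts: A random sets and G graphs accepted
  obtain ⟨A, hA⟩ : ∃ A : ℕ, A = (univ.filter (fun p : Pt => g (WB p.1 : Set ι) = true)).card :=
    ⟨_, rfl⟩
  obtain ⟨G, hG⟩ : ∃ G : ℕ, G = (univ.filter (fun w : W => g (gr w : Set ι) = true)).card :=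
    ⟨_, rfl⟩
  rw [← hA, ← hG]
  have hAle : Fintype.card Pt ≤ A + {ω : Fin B → Fin lam → ι → Fin Q |
      ¬ val (WB ω : Set ι) o}.ncard := by
    have h1 : (univ.filter (fun p : Pt => ¬ g (WB p.1 : Set ι) = true)).card ≤
        {ω : Fin B → Fin lam → ι → Fin Q | ¬ val (WB ω : Set ι) o}.ncard := by
      rw [← Set.ncard_coe_finset]
      refine Set.ncard_le_ncard_of_injOn (fun p => p.1) ?_ ?_ (Set.toFinite _)
      · intro p hp
        rw [Finset.mem_coe, Finset.mem_filter] at hp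
        show ¬ val (WB p.1 : Set ι) o
        rw [ho]
        exact hp.2
      · intro p _ p' _ h
        exact Subtype.ext h
    have h2 := Finset.card_filter_add_card_filter_not (s := (univ : Finset Pt))
      (fun p : Pt => g (WB p.1 : Set ι) = true)
    rw [Finset.card_univ, ← hA] at h2
    omega
  have hGval : G = {w : W | val (gr w : Set ι) o}.ncard := by
    rw [hG, ← Set.ncard_coe_finset]
    congr 1
    ext w
    simp only [Finset.coe_filter, Finset.mem_univ, true_and, Set.mem_ofPred_eq, ho]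
  have hGle : G ≤ P := by
    rw [hG, hP, ← Finset.card_univ]
    exact Finset.card_le_card (Finset.filter_subset _ _)
  obtain ⟨N, hN⟩ : ∃ N, N = Fintype.card Pt := ⟨_, rfl⟩
  rw [← hN] at hAle hcardPt hPtpos ⊢
  have hPtQ : (0 : ℚ) < N := by exact_mod_cast hPtpos
  have hcQ : (1 : ℚ) ≤ c := by exact_mod_cast hc
  have hNpos : (0 : ℚ) < P := by exact_mod_cast hPpos
  rcases havg with h1 | h1
  · -- almost all random sets are accepted
    obtain ⟨v, hv⟩ : ∃ v : ℕ, v = {ω : Fin B → Fin lam → ι → Fin Q |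
      ¬ val (WB ω : Set ι) o}.ncard := ⟨_, rfl⟩
    rw [← hv] at h1 hAle
    have h2 : v * (4 * c) ≤ Om := by
      have h3 : v * (4 * c) * (s + 1) ≤ Om * (s + 1) := by
        calc v * (4 * c) * (s + 1) = v * (4 * c * (s + 1)) := by ring
          _ ≤ v * 4 ^ e := Nat.mul_le_mul_left _ hs
          _ ≤ T * Om := by rw [hOm]; exact h1
          _ ≤ (s + 1) * Om := Nat.mul_le_mul_right _ hTs
          _ = _ := by ring
      exact Nat.le_of_mul_le_mul_right h3 (by omega)
    have h3 : v * (2 * c) ≤ N := by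
      have : 2 * (v * (2 * c)) = v * (4 * c) := by ring
      omega
    have h4 : (v : ℚ) * (2 * c) ≤ N := by exact_mod_cast h3
    have h5 : (N : ℚ) ≤ A + v := by exact_mod_cast hAle
    have h6 : (N : ℚ) * (2 * c) - N ≤ A * (2 * c) := by
      have : (N : ℚ) * (2 * c) ≤ (A + v) * (2 * c) :=
        mul_le_mul_of_nonneg_right h5 (by positivity)
      linarith
    have h7 : (G : ℚ) ≤ P := by exact_mod_cast hGle
    have h8 : (G : ℚ) * (N * (2 * c)) ≤ P * (N * (2 * c)) :=
      mul_le_mul_of_nonneg_right h7 (by positivity)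
    have h9 : (P : ℚ) * ((N : ℚ) * (2 * c) - N) ≤ P * (A * (2 * c)) :=
      mul_le_mul_of_nonneg_left h6 hNpos.le
    linarith
  · -- few graphs are accepted
    rw [← hGval] at h1
    have h2 : (c : ℚ) * (T * (1 / 4) ^ e) ≤ 1 / 4 := by
      have h3 : (4 * c * (s + 1) : ℚ) ≤ 4 ^ e := by exact_mod_cast hs
      have h4 : (T : ℚ) ≤ s + 1 := by exact_mod_cast hTs
      have h5 : (0 : ℚ) < 4 ^ e := by positivity
      have h6 : ((1 / 4 : ℚ) ^ e) * 4 ^ e = 1 := by rw [← mul_pow]; norm_num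
      have h7 : (c : ℚ) * (T * (1 / 4) ^ e) * 4 ^ e ≤ 1 / 4 * 4 ^ e := by
        calc (c : ℚ) * (T * (1 / 4) ^ e) * 4 ^ e = c * T * ((1 / 4) ^ e * 4 ^ e) := by ring
          _ = c * T := by rw [h6, mul_one]
          _ ≤ c * (s + 1) := mul_le_mul_of_nonneg_left h4 (by linarith)
          _ ≤ 1 / 4 * 4 ^ e := by linarith
      exact le_of_mul_le_mul_right h7 h5
    have h3 : (G : ℚ) * (2 * c) ≤ P := by
      have h4 : (P : ℚ) * (1 + c * (T * (1 / 4) ^ e)) ≤ P * (1 + 1 / 4) :=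
        mul_le_mul_of_nonneg_left (by linarith) hNpos.le
      have h5 : (G : ℚ) * (3 * c) ≤ P * (1 + 1 / 4) := h1.trans h4
      have h6 : (0 : ℚ) ≤ G * c := by positivity
      nlinarith
    have h4 : (0 : ℚ) ≤ (A : ℚ) * P * (2 * c) := by positivity
    calc (G : ℚ) * N * (2 * c) = N * (G * (2 * c)) := by ring
      _ ≤ N * P := mul_le_mul_of_nonneg_left h3 hPtQ.le
      _ ≤ _ := by linarith

end Gen

theorem t_ADV2 : S_ADV2 := by
  classical
  have hI : S_IND := Pool.Agent.J4H42.MC.t_IND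
  intro k μ m t K e lam c R hR he hk hμ ht hc hKm hK hlam hq2
  obtain ⟨q, hq⟩ : ∃ q, q = 2 ^ (k * μ) := ⟨_, rfl⟩
  rw [← hq] at hlam hq2
  have hm1 : 1 ≤ m := by omega
  have hqpos : 1 ≤ q := by rw [hq]; exact Nat.one_le_two_pow
  have hmq : q ≤ m * q := Nat.le_mul_of_pos_left _ hm1
  have hlam1 : 1 ≤ lam := by
    by_contra hcon
    have h0 : lam = 0 := by omega
    subst h0
    simp at hlam
    omega
  have hle : 1 ≤ (lam + 1) * lam * c := Nat.mul_pos (Nat.mul_pos (by omega) hlam1) hc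
  have hqe : 512 * e ≤ q := by
    refine le_trans ?_ hq2
    calc 512 * e = (512 * e) * 1 := by ring
      _ ≤ (512 * e) * ((lam + 1) * lam * c) := Nat.mul_le_mul_left _ hle
      _ = _ := by ring
  obtain ⟨B, hBdef⟩ : ∃ B, B = (lam + 1) * e := ⟨_, rfl⟩
  have hBpos : 0 < B := by rw [hBdef]; exact Nat.mul_pos (by omega) he
  obtain ⟨Q, hQdef⟩ : ∃ Q, Q = 2 * (B * lam) := ⟨_, rfl⟩
  have hQpos : 0 < Q := by rw [hQdef]; exact Nat.mul_pos (by omega) (Nat.mul_pos hBpos hlam1)
  have : NeZero Q := ⟨by omega⟩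
  have h4r : 4 * (64 * Q) * c ≤ q := by
    refine le_trans (le_of_eq ?_) hq2
    rw [hQdef, hBdef]
    ring
  have hN : Fintype.card (Pnt k μ m) = m * q := by
    rw [Fintype.card_prod, Fintype.card_fun, Fintype.card_fun, Fintype.card_bool,
      Fintype.card_fin, Fintype.card_fin, Fintype.card_fin, ← pow_mul, hq, mul_comm μ k]
  obtain ⟨Om, hOm⟩ : ∃ Om, Om = ((Q ^ Fintype.card (Pnt k μ m)) ^ lam) ^ B := ⟨_, rfl⟩
  -- few random sets contain a graph
  have hhas : {ω : Fin B → Fin lam → (Pnt k μ m) → Fin Q |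
      Has R (WB ω : Set (Pnt k μ m))}.ncard * 2 ≤ Om := by
    have hsub : {ω : Fin B → Fin lam → (Pnt k μ m) → Fin Q | Has R (WB ω : Set (Pnt k μ m))} ⊆
        ⋃ w ∈ (univ : Finset (Fin K → Bool)), {ω | graph R w ⊆ WB ω} := by
      intro ω hω
      obtain ⟨w, hw⟩ := hω
      simp only [Set.mem_iUnion]
      refine ⟨w, mem_univ _, ?_⟩
      intro v hv
      have h1 := (mem_graph R w v).mp hv
      have h2 := hw v.1
      rw [h1] at h2
      exact h2
    have h1 : {ω : Fin B → Fin lam → (Pnt k μ m) → Fin Q |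
        Has R (WB ω : Set (Pnt k μ m))}.ncard ≤
        ∑ w : Fin K → Bool, {ω : Fin B → Fin lam → (Pnt k μ m) → Fin Q |
          graph R w ⊆ WB ω}.ncard :=
      (Set.ncard_le_ncard hsub (Set.toFinite _)).trans (Finset.set_ncard_biUnion_le _ _)
    have h2 : ∀ w : Fin K → Bool,
        {ω : Fin B → Fin lam → (Pnt k μ m) → Fin Q | graph R w ⊆ WB ω}.ncard * 2 ^ m ≤ Om := by
      intro w
      have h3 := count_contains (Q := Q) B lam (by rw [hQdef]) (graph R w)
      rw [card_graph R w] at h3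
      rw [hOm]
      exact h3
    have h3 : {ω : Fin B → Fin lam → (Pnt k μ m) → Fin Q |
        Has R (WB ω : Set (Pnt k μ m))}.ncard * 2 ^ m ≤ 2 ^ K * Om := by
      calc _ ≤ (∑ w : Fin K → Bool,
            {ω : Fin B → Fin lam → (Pnt k μ m) → Fin Q | graph R w ⊆ WB ω}.ncard) * 2 ^ m :=
            Nat.mul_le_mul_right _ h1
        _ ≤ ∑ w : Fin K → Bool, Om := by
            rw [Finset.sum_mul]
            exact Finset.sum_le_sum (fun w _ => h2 w)
        _ = 2 ^ K * Om := by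
            rw [Finset.sum_const, Finset.card_univ, Fintype.card_fun, Fintype.card_fin,
              Fintype.card_bool, smul_eq_mul]
    have h5 : 2 * 2 ^ K ≤ 2 ^ m := by
      calc 2 * 2 ^ K = 2 ^ (K + 1) := by rw [pow_succ]; ring
        _ ≤ 2 ^ m := Nat.pow_le_pow_right (by norm_num) hKm
    have hpos : 0 < 2 ^ m := by positivity
    refine Nat.le_of_mul_le_mul_right ?_ hpos
    calc _ = ({ω : Fin B → Fin lam → (Pnt k μ m) → Fin Q |
          Has R (WB ω : Set (Pnt k μ m))}.ncard * 2 ^ m) * 2 := by ring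
      _ ≤ (2 ^ K * Om) * 2 := Nat.mul_le_mul_right _ h3
      _ = (2 * 2 ^ K) * Om := by ring
      _ ≤ 2 ^ m * Om := Nat.mul_le_mul_right _ h5
      _ = _ := by ring
  obtain ⟨Ng, iN, nN, neg, hneg, hadv⟩ := adv_gen2 (ι := Pnt k μ m) (W := Fin K → Bool) (graph R)
    (Has R) B lam Q e c (by omega) hc (by
      refine (Nat.mul_le_mul_right _ (card_small_sets (2 * e))).trans ?_
      rw [hN]
      calc (m * q + 1) ^ (2 * e) * 4 ^ e ≤ (2 ^ lam) ^ (2 * e) * 4 ^ e :=
            Nat.mul_le_mul_right _ (Nat.pow_le_pow_left hlam _)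
        _ = 4 ^ B := by
            rw [← pow_mul, hBdef]
            have : (4 : ℕ) = 2 ^ 2 := by norm_num
            rw [this, ← pow_mul, ← pow_mul, ← pow_add]
            congr 1
            ring) (by
      intro Y hY1 hY
      have h1 := card_through hI R hR e hK Y hY
      rw [Fintype.card_fun, Fintype.card_fin, Fintype.card_bool]
      rw [← hq] at h1
      refine le_trans ?_ h1
      rw [mul_assoc]
      refine Nat.mul_le_mul_left _ ?_
      calc (4 * (64 * Q)) ^ Y.card * c ≤ (4 * (64 * Q)) ^ Y.card * c ^ Y.card :=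
            Nat.mul_le_mul_left _ (Nat.le_self_pow (by omega) c)
        _ = (4 * (64 * Q) * c) ^ Y.card := (mul_pow _ _ _).symm
        _ ≤ q ^ Y.card := Nat.pow_le_pow_left h4r _) (by rw [← hOm]; exact hhas)
  refine ⟨(Fin K → Bool), Ng, inferInstance, inferInstance, iN, nN,
    fun w => (graph R w : Set (Pnt k μ m)), neg, ?_, hneg, ?_⟩
  · intro w
    exact ⟨w, fun i => by rw [Finset.mem_coe, mem_graph]⟩
  · intro Bs hBs s g hg hs
    exact hadv Bs hBs s g hg hs

end Pool.Agent.J4H64.MO
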