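import Pool.Agent.J4H64.MO.Def

set_option autoImplicit false

/-! Assembly of the parametric statement. -/

namespace Pool.Agent.J4H64.MO

open Finset Filter Pool.Agent.H560R2 Pool.Agent.H520R2 Pool.Agent.J4H64.MC Pool.Agent.J4H64.MN

theorem t_OASM : S_OASM := by
  classical
  intro hR hA hN hDl hSh hEnc k μ ν n e c B hk hμ he hc hB hM hcond hn
  by_cases hce : 4 ^ e < 4 * c
  · refine ⟨Unit, inferInstance, inferInstance, fun _ _ => false, ?_⟩
    intro C _ h
    exfalso
    have : 4 * c * 1 ≤ 4 * c * ((C.m + 1) * (C.m + Fintype.card (Clause n k) + 2) + 1) :=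
      Nat.mul_le_mul_left _ (by omega)
    omega
  push Not at hce
  have hkμ : 1 ≤ k * μ := Nat.mul_pos (by omega) hμ
  obtain ⟨q, hq⟩ : ∃ q, q = k * μ := ⟨_, rfl⟩
  rw [← hq] at hkμ hcond hn
  have h2q : q < 2 ^ q := Nat.lt_two_pow_self
  have h1 : e ≤ q * e := by
    calc e = 1 * e := (one_mul e).symm
      _ ≤ q * e := Nat.mul_le_mul_right _ hkμ
  have h2 : q * e ≤ q * q * e := by
    calc q * e = 1 * (q * e) := (one_mul _).symm
      _ ≤ q * (q * e) := Nat.mul_le_mul_right _ hkμ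
      _ = q * q * e := by ring
  have h3 : q * q * e ≤ q * q * e * c := Nat.le_mul_of_pos_right _ hc
  have h1c : e * c ≤ q * q * e * c := Nat.mul_le_mul_right _ (h1.trans h2)
  have h2c : q * e * c ≤ q * q * e * c := Nat.mul_le_mul_right _ h2
  have hcond' : 8192 * (q * q * e * c) + 1 ≤ 2 ^ q := by
    have : 8192 * q ^ 2 * e * c = 8192 * (q * q * e * c) := by ring
    omega
  obtain ⟨m, hm⟩ : ∃ m, m = 2 ^ q := ⟨_, rfl⟩
  rw [← hm] at h2q hcond' hn
  obtain ⟨R, hRi⟩ := hR (Fin m × Fin k × Fin μ) (2 * q + 3) (m - 1) (by omega) (by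
    simp only [Fintype.card_prod, Fintype.card_fin]
    rw [← hq]
    have h1 : 2 ^ (2 * q + 3) = 8 * (m * m) := by
      rw [hm]; ring
    rw [h1]
    have h2 : m * q ≤ m * m := Nat.mul_le_mul_left _ h2q.le
    omega)
  obtain ⟨R', X, hX1, hX2⟩ := hSh k μ ν m (2 * q + 3) (m - 1) R ⟨q + 1, by ring⟩
  obtain ⟨z, hz1, hz2⟩ := hEnc k (μ + ν) m (2 * q + 3) (m - 1 + k * ν) n R' hk (by
    refine le_trans ?_ hn
    refine Nat.add_le_add (Nat.add_le_add (by omega) ?_) le_rfl
    exact le_of_eq (by ring))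
  obtain ⟨Pt, Ng, iP, nP, iN, nN, pos, neg, hpos, hneg, hadv⟩ :=
    hA k μ m (2 * q + 3) (m - 1) e (2 * q + 1) c R hRi he (by omega) hμ (by omega) hc
    (by omega) (by
      rw [← hq]
      have h1 : 16 * ((2 * q + 3) * (q * e)) = 32 * (q * q * e) + 48 * (q * e) := by ring
      omega) (by
      rw [← hq, ← hm]
      have h1 : 2 ^ (2 * q + 1) = 2 * (m * m) := by
        rw [hm]; ring
      have h2 : 1 ≤ m * m := Nat.mul_pos (by omega) (by omega)
      omega) (by
      rw [← hq, ← hm]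
      have h1 : 512 * (2 * q + 1 + 1) * (2 * q + 1) * e * c =
          2048 * (q * q * e * c) + 3072 * (q * e * c) + 1024 * (e * c) := by ring
      omega)
  obtain ⟨M, hMdef⟩ : ∃ M, M = 2 ^ (k * ν) := ⟨_, rfl⟩
  rw [← hMdef] at hM
  have hcardJ : Fintype.card (Fin k → Fin ν → Bool) = M := by
    rw [Fintype.card_fun, Fintype.card_fun, Fintype.card_bool, Fintype.card_fin,
      Fintype.card_fin, hMdef, ← pow_mul, mul_comm]
  let e0 : (Fin k → Fin ν → Bool) ≃ Fin M := Fintype.equivFinOfCardEq hcardJ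
  let E : (Fin M → Set (Pnt k μ m)) → Clause n k → Bool :=
    fun y c => !(z (X (fun j => y (e0 j))) c)
  have hleafE : ∀ c, ∃ T : Finset (Pnt k (μ + ν) m), T.card ≤ 1 ∧
      ∀ y y' : Fin M → Set (Pnt k μ m),
        (∀ p ∈ T, p ∈ X (fun j => y (e0 j)) → p ∈ X (fun j => y' (e0 j))) →
        E y c = true → E y' c = true := by
    intro c
    obtain ⟨T, hT, hTl⟩ := hz1 c
    exact ⟨T, hT, fun y y' h hy => hTl _ _ h hy⟩
  have hmono : ∀ y y' : Fin M → Set (Pnt k μ m), (∀ j, y j ⊆ y' j) → E y ≤ E y' := by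
    intro y y' hyy c
    obtain ⟨T, -, hT⟩ := hleafE c
    rw [Bool.le_iff_imp]
    apply hT
    intro p _ hp
    obtain ⟨j, p', hj⟩ := hX1 p
    rw [hj] at hp ⊢
    exact hyy _ hp
  obtain ⟨S, hS⟩ : ∃ S, S = 4 ^ e / (4 * c) - 1 := ⟨_, rfl⟩
  have hc4 : 0 < 4 * c := by omega
  have hS1 : S + 1 = 4 ^ e / (4 * c) := by
    have : 1 ≤ 4 ^ e / (4 * c) := (Nat.one_le_div_iff hc4).mpr hce
    omega
  have hMpos : 0 < M := by
    have : 0 < c * (2 * B) := Nat.mul_pos hc (by omega)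
    omega
  have hbase : ∀ (zz : Fin M → Set (Pnt k μ m)) (J : Fin M), ∀ b ∈ blockBase E zz J,
      ∃ T : Finset (Pnt k μ m), T.card ≤ e ∧ LeafOn T (fun x => b x = true) := by
    rintro zz J h ⟨b, hb, rfl⟩
    rcases hb with ⟨b0, rfl⟩ | ⟨i, rfl⟩
    · exact ⟨∅, by simp, fun x y _ h => h⟩
    · obtain ⟨T, hT, hTl⟩ := hleafE i
      choose jj pp hjp using hX1
      refine ⟨T.image pp, (Finset.card_image_le.trans hT).trans he, fun x y hxy h => ?_⟩
      simp only at h ⊢
      refine hTl _ _ (fun p hp hpx => ?_) h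
      rw [hjp] at hpx ⊢
      by_cases hj : e0 (jj p) = J
      · rw [hj, Function.update_self] at hpx ⊢
        exact hxy _ (Finset.mem_image_of_mem pp hp) hpx
      · rw [Function.update_of_ne hj] at hpx ⊢
        exact hpx
  have hf0 : ¬ Has R (∅ : Set (Pnt k μ m)) := by
    rintro ⟨w, hw⟩
    exact hw ⟨0, by omega⟩
  have hRE : ∀ y : Fin M → Set (Pnt k μ m), Sat (fun c => !(E y c)) ↔ ∃ j, Has R (y j) := by
    intro y
    have e1 : (fun c => !(E y c)) = z (X (fun j => y (e0 j))) := by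
      funext c
      simp only [E, Bool.not_not]
    rw [e1, hz2, hX2]
    constructor
    · rintro ⟨j, hj⟩
      exact ⟨e0 j, hj⟩
    · rintro ⟨j, hj⟩
      refine ⟨e0.symm j, ?_⟩
      rw [Equiv.apply_symm_apply]
      exact hj
  obtain ⟨Λ, iΛ, nΛ, D, hD⟩ := hard_dist (ι := Clause n k) (α := Pnt k μ m) (Pt := Pt)
    (Ng := Ng) M hMpos pos neg c S E hmono (fun Y => Has R Y) hpos hneg hf0
    (fun x => Sat (fun c => !(x c))) hRE (by
      intro zz J g hg
      have := hadv (blockBase E zz J) (hbase zz J) S g hg (by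
        rw [hS1]
        exact Nat.mul_div_le _ _)
      convert this using 1)
  refine ⟨Λ, iΛ, nΛ, fun l c => !(D l c), ?_⟩
  intro C hcost hsize
  obtain ⟨n', C', out, h4, h5, h6⟩ := hN (Clause n k) C B hcost
  obtain ⟨C2, out2, h7, h8, h9⟩ := hDl (Clause n k) n' C' out
  have h10 := hD n' C2 out2 (by
    rw [h8, h9]
    refine h5.trans ?_
    have h8 : (C.m + 1) * (C.m + Fintype.card (Clause n k) + 2) + 1 ≤ 4 ^ e / (4 * c) := by
      rw [Nat.le_div_iff_mul_le hc4, mul_comm]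
      exact hsize
    omega) (by
      rw [h9]
      exact (Nat.mul_le_mul_left _ h6).trans hM)
  have h11 : ∀ l, (out2.eval (D l) (C2.vals (D l)) = true) ↔ C.Acc (fun c => !(D l c)) := by
    intro l
    have h12 := h7 (fun c => !(D l c))
    have h13 : (fun c => !(fun c => !(D l c)) c) = D l := by
      funext c
      simp
    rw [h13] at h12
    rw [h12, Bool.not_eq_true', ← Bool.not_eq_true, h4, not_not]
  have h14 : (univ.filter (fun l => (out2.eval (D l) (C2.vals (D l)) = true ↔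
      Sat (fun c => !(D l c))))) =
      univ.filter (fun l => (C.Acc (fun c => !(D l c)) ↔ Sat (fun c => !(D l c)))) := by
    apply Finset.filter_congr
    intro l _
    rw [h11]
  rw [← h14]
  refine lt_of_eq_of_lt ?_ h10
  congr!

end Pool.Agent.J4H64.MO
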