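import Pool.Agent.J4H64.MN.Def

set_option autoImplicit false

/-! Circuits with few NOT gates for `k`-CNF-SAT, with the sharp number of NOT gates: the statements
of the pieces. -/

namespace Pool.Agent.J4H64.MO

open Finset Filter Pool.Agent.H560R2 Pool.Agent.H520R2 Pool.Agent.J4H64.MC Pool.Agent.J4H64.MN

/-- piece DUAL: De Morgan for the circuits of `H520R2.NM` -/
def S_DUAL : Prop :=
  ∀ (ι : Type) (n' : ℕ) (C : NM.Circuit ι n') (out : NM.Wire ι n'),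
    ∃ (C2 : NM.Circuit ι n') (out2 : NM.Wire ι n'),
      (∀ x : ι → Bool, out2.eval (fun i => !x i) (C2.vals (fun i => !x i)) =
        !(out.eval x (C.vals x))) ∧ C2.size = C.size ∧ C2.fanins = C.fanins

/-- piece SHIFT: `2 ^ (k ν)` instances over the same seeds, the index `j` of the instance becomes
part of the values (for `t` odd a bit is the parity of `t` copies of itself) -/
def S_SHIFT : Prop :=
  ∀ (k μ ν m t K : ℕ) (R : Fin m × Fin k × Fin μ → Fin t → Fin K), Odd t →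
    ∃ (R' : Fin m × Fin k × Fin (μ + ν) → Fin t → Fin (K + k * ν))
      (X : ((Fin k → Fin ν → Bool) → Set (Pnt k μ m)) → Set (Pnt k (μ + ν) m)),
      (∀ p : Pnt k (μ + ν) m, ∃ (j : Fin k → Fin ν → Bool) (p' : Pnt k μ m),
        ∀ y, p ∈ X y ↔ p' ∈ y j) ∧
      ∀ y, Has R' (X y) ↔ ∃ j, Has R (y j)

open Classical in
/-- piece ADV2 -/
def S_ADV2 : Prop :=
  ∀ (k μ m t K e lam c : ℕ) (R : Fin m × Fin k × Fin μ → Fin t → Fin K), Indep R →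
    1 ≤ e → 1 ≤ k → 1 ≤ μ → 1 ≤ t → 1 ≤ c → K + 1 ≤ m → 16 * (t * (k * μ * e)) ≤ K →
    m * 2 ^ (k * μ) + 1 ≤ 2 ^ lam → 512 * (lam + 1) * lam * e * c ≤ 2 ^ (k * μ) →
    ∃ (Pt Ng : Type) (_ : Fintype Pt) (_ : Nonempty Pt) (_ : Fintype Ng) (_ : Nonempty Ng)
      (pos : Pt → Set (Pnt k μ m)) (neg : Ng → Set (Pnt k μ m)),
      (∀ p, Has R (pos p)) ∧ (∀ ω, ¬ Has R (neg ω)) ∧
      ∀ (Bs : Set (Set (Pnt k μ m) → Bool)),
        (∀ b ∈ Bs, ∃ T : Finset (Pnt k μ m), T.card ≤ e ∧ LeafOn T (fun x => b x = true)) →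
        ∀ (s : ℕ) (g : Set (Pnt k μ m) → Bool), MComp Bs s g → 4 * c * (s + 1) ≤ 4 ^ e →
          ((univ.filter (fun p => g (pos p) = true)).card : ℚ) * Fintype.card Ng * (2 * c) ≤
            ((univ.filter (fun ω => g (neg ω) = true)).card : ℚ) * Fintype.card Pt * (2 * c) +
              Fintype.card Ng * Fintype.card Pt

open Classical in
/-- the parametric statement -/
def S_OPAR : Prop :=
  ∀ (k μ ν n e c B : ℕ), 3 ≤ k → 1 ≤ μ → 1 ≤ e → 1 ≤ c → 1 ≤ B → c * (2 * B) ≤ 2 ^ (k * ν) →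
    8192 * (k * μ) ^ 2 * e * c + 1 ≤ 2 ^ (k * μ) →
    2 ^ (k * μ) + k * ν + 2 ^ (k * μ) * (k * (μ + ν)) * (2 * (k * μ) + 4) +
      2 ^ (k * μ) * (k * 2 ^ (μ + ν)) * (μ + ν + 1) ≤ n →
    ∃ (Λ : Type) (_ : Fintype Λ) (_ : Nonempty Λ) (D : Λ → Clause n k → Bool),
      ∀ C : NCirc (Clause n k), C.NotCost B →
        4 * c * ((C.m + 1) * (C.m + Fintype.card (Clause n k) + 2) + 1) ≤ 4 ^ e →
        2 * c * (univ.filter (fun l => (C.Acc (D l) ↔ Sat (D l)))).card <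
          (c + 2) * Fintype.card Λ

/-- piece OASM -/
def S_OASM : Prop := S_ROWS → S_ADV2 → S_NBIN → S_DUAL → S_SHIFT → S_ENC → S_OPAR

/-- the final statement -/
def S_OFIN : Prop :=
  ∀ k : ℕ, 3 ≤ k → ∀ γ : ℝ, 0 < γ → ∃ c : ℝ, 0 < c ∧ ∀ η : ℝ, η < k → ∀ᶠ n : ℕ in atTop,
    ∀ B : ℕ, 1 ≤ B → (B : ℝ) ≤ (n : ℝ) ^ η →
    ∃ (Λ : Type) (_ : Fintype Λ) (_ : Nonempty Λ) (D : Λ → Clause n k → Bool),
      ∀ C : NCirc (Clause n k), C.NotCost B →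
        (C.m : ℝ) < (2 : ℝ) ^ (c * ((n : ℝ) ^ k / B) ^ (1 / ((k : ℝ) + 1)) / Real.log n ^ 3) →
        ({l | C.Acc (D l) ↔ Sat (D l)}.ncard : ℝ) < (1 / 2 + γ) * Fintype.card Λ

/-- piece OPFIN -/
def S_OPFIN : Prop := S_OPAR → S_OFIN

/-- the worst case, for circuits with few NOT gates and for circuits of depth `d` -/
def S_OCOR : Prop :=
  ∀ k : ℕ, 3 ≤ k → ∃ c : ℝ, 0 < c ∧ ∀ η : ℝ, η < k → ∀ᶠ n : ℕ in atTop,
    ∀ C : NCirc (Clause n k), (∀ x, C.Acc x ↔ Sat x) →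
      ((2 : ℝ) ^ C.nots ≤ (n : ℝ) ^ η →
        (2 : ℝ) ^ (c * ((n : ℝ) ^ k / 2 ^ C.nots) ^ (1 / ((k : ℝ) + 1)) / Real.log n ^ 3) ≤
          C.m) ∧
      ∀ d : ℕ, C.Depth d → ((C.nots : ℝ) + 1) ^ d ≤ (n : ℝ) ^ η →
        (2 : ℝ) ^ (c * ((n : ℝ) ^ k / ((C.nots : ℝ) + 1) ^ d) ^ (1 / ((k : ℝ) + 1)) /
          Real.log n ^ 3) ≤ C.m

/-- piece OCOR -/
def S_COR2 : Prop := S_OFIN → S_COST → S_OCOR

end Pool.Agent.J4H64.MO
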