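import Pool.Agent.J4H64.MO.Def

set_option autoImplicit false

/-! De Morgan for the circuits of `H520R2.NM`. -/

namespace Pool.Agent.J4H64.MO

open Pool.Agent.H520R2

section

variable {ι : Type}

def dw {n : ℕ} : NM.Wire ι n → NM.Wire ι n
  | .input i => .input i
  | .const b => .const (!b)
  | .gate j => .gate j

def dc : {n : ℕ} → NM.Circuit ι n → NM.Circuit ι n
  | _, .empty => .empty
  | _, .and C a b => .or (dc C) (dw a) (dw b)
  | _, .or C a b => .and (dc C) (dw a) (dw b)
  | _, .any C w u G a => .any (dc C) w u (fun z i => !(G (fun j => !(z j)) i))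
      (fun j => dw (a j))

theorem dw_eval {n : ℕ} (x : ι → Bool) (v v' : Fin n → Bool) (h : ∀ j, v' j = !(v j))
    (a : NM.Wire ι n) : (dw a).eval (fun i => !x i) v' = !(a.eval x v) := by
  cases a with
  | input i => rfl
  | const b => rfl
  | gate j => exact h j

theorem dc_vals {n : ℕ} (C : NM.Circuit ι n) (x : ι → Bool) :
    ∀ j, (dc C).vals (fun i => !x i) j = !(C.vals x j) := by
  induction C with
  | empty => intro j; exact j.elim0
  | @and n C a b ih =>
    intro j
    refine Fin.lastCases ?_ (fun j => ?_) j
    · simp only [dc, NM.Circuit.vals, Fin.snoc_last, dw_eval x _ _ ih, Bool.not_and]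
    · simp only [dc, NM.Circuit.vals, Fin.snoc_castSucc, ih]
  | @or n C a b ih =>
    intro j
    refine Fin.lastCases ?_ (fun j => ?_) j
    · simp only [dc, NM.Circuit.vals, Fin.snoc_last, dw_eval x _ _ ih, Bool.not_or]
    · simp only [dc, NM.Circuit.vals, Fin.snoc_castSucc, ih]
  | @any n C w u G a ih =>
    intro j
    refine Fin.addCases (fun j => ?_) (fun j => ?_) j
    · simp only [dc, NM.Circuit.vals, Fin.append_left, ih]
    · simp only [dc, NM.Circuit.vals, Fin.append_right, dw_eval x _ _ ih, Bool.not_not]

theorem dc_size {n : ℕ} (C : NM.Circuit ι n) : (dc C).size = C.size := by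
  induction C with
  | empty => rfl
  | and C a b ih => simp only [dc, NM.Circuit.size, ih]
  | or C a b ih => simp only [dc, NM.Circuit.size, ih]
  | any C w u G a ih => simp only [dc, NM.Circuit.size, ih]

theorem dc_fanins {n : ℕ} (C : NM.Circuit ι n) : (dc C).fanins = C.fanins := by
  induction C with
  | empty => rfl
  | and C a b ih => simp only [dc, NM.Circuit.fanins, ih]
  | or C a b ih => simp only [dc, NM.Circuit.fanins, ih]
  | any C w u G a ih => simp only [dc, NM.Circuit.fanins, ih]

end

theorem t_DUAL : S_DUAL := by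
  intro ι n' C out
  exact ⟨dc C, dw out, fun x => dw_eval x _ _ (dc_vals C x) out, dc_size C, dc_fanins C⟩

end Pool.Agent.J4H64.MO
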