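import Pool.Agent.J4H64.MO.Def
import Pool.Agent.J4H68.MN.Npfin

set_option autoImplicit false

/-!
# Project MO, piece OPFIN: the asymptotic form (after helper46's `Pfin` and helper68's `Npfin`)
-/

namespace Pool.Agent.J4H64.MO

open Finset Filter
open Pool.Agent.J4H64.MC Pool.Agent.J4H64.MN Pool.Agent.J4H46.MC Pool.Agent.J4H68.MN

theorem size_le2 {k μ ν : ℕ} (hk : 1 ≤ k) (hμ : 1 ≤ μ) :
    2 ^ (k * μ) + k * ν + 2 ^ (k * μ) * (k * (μ + ν)) * (2 * (k * μ) + 4) +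
      2 ^ (k * μ) * (k * 2 ^ (μ + ν)) * (μ + ν + 1) ≤
      10 * k ^ 2 * (μ + ν) * 2 ^ ((k + 1) * μ + ν) := by
  have e : 2 ^ ((k + 1) * μ + ν) = 2 ^ (k * μ) * (2 ^ μ * 2 ^ ν) := by
    rw [← pow_add, ← pow_add]; congr 1; ring
  have e2 : 2 ^ (μ + ν) = 2 ^ μ * 2 ^ ν := pow_add _ _ _
  rw [e, e2]
  have hP : 1 ≤ 2 ^ (k * μ) := Nat.one_le_two_pow
  generalize 2 ^ (k * μ) = P at hP ⊢
  have hQ : μ ≤ 2 ^ μ := (Nat.lt_two_pow_self).le
  have hQ1 : 1 ≤ 2 ^ μ := Nat.one_le_two_pow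
  generalize 2 ^ μ = Q at hQ hQ1 ⊢
  have hV : 1 ≤ 2 ^ ν := Nat.one_le_two_pow
  generalize 2 ^ ν = V at hV ⊢
  have a1 : 1 ≤ k * μ := Nat.one_le_iff_ne_zero.mpr (by positivity)
  have hk2 : k ≤ k ^ 2 := by nlinarith
  have hk3 : 1 ≤ k ^ 2 := hk.trans hk2
  have hs : 1 ≤ μ + ν := by omega
  have hQV : 1 ≤ Q * V := Nat.mul_pos hQ1 hV
  have hR : 1 ≤ P * (Q * V) := Nat.mul_pos hP hQV
  have t1 : P ≤ k ^ 2 * (μ + ν) * (P * (Q * V)) := by
    calc P = 1 * (P * 1) := by ring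
      _ ≤ (k ^ 2 * (μ + ν)) * (P * (Q * V)) :=
        Nat.mul_le_mul (Nat.mul_pos hk3 hs) (Nat.mul_le_mul_left _ hQV)
  have t2 : k * ν ≤ k ^ 2 * (μ + ν) * (P * (Q * V)) := by
    calc k * ν = (k * ν) * 1 := by ring
      _ ≤ (k ^ 2 * (μ + ν)) * (P * (Q * V)) :=
        Nat.mul_le_mul (Nat.mul_le_mul hk2 (by omega)) hR
  have t3 : P * (k * (μ + ν)) * (2 * (k * μ) + 4) ≤ 6 * (k ^ 2 * (μ + ν) * (P * (Q * V))) := by
    calc P * (k * (μ + ν)) * (2 * (k * μ) + 4) ≤ P * (k * (μ + ν)) * (6 * (k * μ)) :=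
          Nat.mul_le_mul_left _ (by omega)
      _ = 6 * (k ^ 2 * (μ + ν) * (P * (μ * 1))) := by ring
      _ ≤ 6 * (k ^ 2 * (μ + ν) * (P * (Q * V))) := by gcongr
  have t4 : P * (k * (Q * V)) * (μ + ν + 1) ≤ 2 * (k ^ 2 * (μ + ν) * (P * (Q * V))) := by
    calc P * (k * (Q * V)) * (μ + ν + 1) ≤ P * (k * (Q * V)) * (2 * (μ + ν)) :=
          Nat.mul_le_mul_left _ (by omega)
      _ = 2 * (k * (μ + ν) * (P * (Q * V))) := by ring
      _ ≤ 2 * (k ^ 2 * (μ + ν) * (P * (Q * V))) := by gcongr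
  have t5 : 10 * k ^ 2 * (μ + ν) * (P * (Q * V)) = 10 * (k ^ 2 * (μ + ν) * (P * (Q * V))) := by
    ring
  rw [t5]
  omega

theorem exists_mu2 {k n ν : ℕ} (hk : 1 ≤ k) (hn : 10 * k ^ 2 * (1 + ν) * 2 ^ ((k + 1) + ν) ≤ n) :
    ∃ μ : ℕ, 1 ≤ μ ∧ 10 * k ^ 2 * (μ + ν) * 2 ^ ((k + 1) * μ + ν) ≤ n ∧
      n < 10 * k ^ 2 * (μ + 1 + ν) * 2 ^ ((k + 1) * (μ + 1) + ν) := by
  classical
  let P : ℕ → Prop := fun μ => 10 * k ^ 2 * (μ + ν) * 2 ^ ((k + 1) * μ + ν) ≤ n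
  have hP1 : P 1 := by
    show 10 * k ^ 2 * (1 + ν) * 2 ^ ((k + 1) * 1 + ν) ≤ n
    rw [mul_one]
    exact hn
  have hk2 : 1 ≤ k ^ 2 := Nat.one_le_pow _ _ hk
  have hbig : ∀ μ : ℕ, μ + 1 ≤ 10 * k ^ 2 * (μ + 1 + ν) * 2 ^ ((k + 1) * (μ + 1) + ν) := by
    intro μ
    have h5 : 1 ≤ 2 ^ ((k + 1) * (μ + 1) + ν) := Nat.one_le_two_pow
    calc μ + 1 ≤ 10 * 1 * (μ + 1 + ν) * 1 := by omega
      _ ≤ _ := by gcongr
  have hn1 : 1 ≤ n := by
    have := hbig 0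
    have h6 : 10 * k ^ 2 * (0 + 1 + ν) * 2 ^ ((k + 1) * (0 + 1) + ν) ≤ n := by
      simpa using hn
    omega
  set μ := Nat.findGreatest P n with hμ
  have h1 : 1 ≤ μ := Nat.le_findGreatest hn1 hP1
  have h2 : P μ := Nat.findGreatest_spec hn1 hP1
  refine ⟨μ, h1, h2, ?_⟩
  by_contra hcon
  push Not at hcon
  have h3 : μ + 1 ≤ n := (hbig μ).trans hcon
  have h7 : μ + 1 ≤ Nat.findGreatest P n := Nat.le_findGreatest h3 hcon
  omega

theorem core2 (k c ν : ℕ) (hk : 3 ≤ k) (hc : 1 ≤ c) (A : ℝ) (hA : A = 30 * (k : ℝ) ^ 2 * 2 ^ (k + 1))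
    (n : ℕ) (x0 : ℝ) (hx0 : x0 = (n : ℝ) / 2 ^ ν) (hx1 : 1 ≤ x0) (hn4 : 4 ≤ n)
    (hnB : A * (16384 * (k : ℝ) ^ 2 * c + 2) * Real.log n ^ 4 ≤ x0 ^ ((k : ℝ) / (k + 1))) :
    ∃ μ e : ℕ, 1 ≤ μ ∧ 1 ≤ e ∧ 8192 * (k * μ) ^ 2 * e * c + 1 ≤ 2 ^ (k * μ) ∧
      2 ^ (k * μ) + k * ν + 2 ^ (k * μ) * (k * (μ + ν)) * (2 * (k * μ) + 4) +
        2 ^ (k * μ) * (k * 2 ^ (μ + ν)) * (μ + ν + 1) ≤ n ∧
      1 / (A * (16384 * (k : ℝ) ^ 2 * c)) * x0 ^ ((k : ℝ) / (k + 1)) / Real.log n ^ 3 ≤ e := by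
  have hk0 : (0 : ℝ) < k := by exact_mod_cast (by omega : 0 < k)
  have hk1 : (3 : ℝ) ≤ k := by exact_mod_cast hk
  have hc1 : (1 : ℝ) ≤ c := by exact_mod_cast hc
  set r : ℝ := (k : ℝ) / (k + 1) with hr
  have hr0 : 0 < r := by rw [hr]; positivity
  have hr1 : r ≤ 1 := by rw [hr, div_le_one (by positivity)]; linarith
  have hA0 : 1 ≤ A := by
    have : (1 : ℝ) ≤ 2 ^ (k + 1) := one_le_pow₀ (by norm_num)
    rw [hA]
    nlinarith
  have hnR : (4 : ℝ) ≤ n := by exact_mod_cast hn4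
  set L : ℝ := Real.log n with hL
  have hL1 : 1 ≤ L := by
    rw [hL, Real.le_log_iff_exp_le (by linarith)]
    have := Real.exp_one_lt_d9
    linarith
  have hV : (0 : ℝ) < 2 ^ ν := by positivity
  have hl2 : (0.5 : ℝ) ≤ Real.log 2 := by linarith [Real.log_two_gt_d9]
  -- `ν ≤ 2 L`
  have hνL : (ν : ℝ) ≤ 2 * L := by
    have h1 : (2 : ℝ) ^ ν ≤ n := by
      rw [hx0, le_div_iff₀ hV, one_mul] at hx1
      exact hx1
    have h2 := Real.log_le_log hV h1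
    rw [Real.log_pow] at h2
    have h3 : (0 : ℝ) ≤ ν := Nat.cast_nonneg _
    nlinarith
  have hL4 : L ≤ L ^ 4 := by
    calc L = L ^ 1 := (pow_one L).symm
      _ ≤ L ^ 4 := pow_le_pow_right₀ hL1 (by norm_num)
  have h8 : 10 * k ^ 2 * (1 + ν) * 2 ^ ((k + 1) + ν) ≤ n := by
    have h1 : A * L ≤ x0 := by
      have h2 : A * L ≤ A * (16384 * (k : ℝ) ^ 2 * c + 2) * L ^ 4 := by
        calc A * L = A * 1 * L := by ring
          _ ≤ A * (16384 * (k : ℝ) ^ 2 * c + 2) * L ^ 4 := by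
            have : (1 : ℝ) ≤ 16384 * (k : ℝ) ^ 2 * c + 2 := by
              have : (0 : ℝ) ≤ 16384 * (k : ℝ) ^ 2 * c := by positivity
              linarith
            gcongr
      have h3 : x0 ^ r ≤ x0 := by
        calc x0 ^ r ≤ x0 ^ (1 : ℝ) := Real.rpow_le_rpow_of_exponent_le hx1 hr1
          _ = x0 := Real.rpow_one _
      exact h2.trans (hnB.trans h3)
    have h2 : (10 * (k : ℝ) ^ 2 * (1 + ν) * 2 ^ ((k + 1) + ν)) ≤ n := by
      rw [hx0, le_div_iff₀ hV] at h1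
      refine le_trans ?_ h1
      rw [hA, pow_add]
      have h3 : (1 : ℝ) + ν ≤ 3 * L := by linarith
      calc 10 * (k : ℝ) ^ 2 * (1 + ν) * (2 ^ (k + 1) * 2 ^ ν)
          ≤ 10 * (k : ℝ) ^ 2 * (3 * L) * (2 ^ (k + 1) * 2 ^ ν) := by gcongr
        _ = 30 * (k : ℝ) ^ 2 * 2 ^ (k + 1) * L * 2 ^ ν := by ring
    exact_mod_cast h2
  obtain ⟨μ, hμ1, hμ2, hμ3⟩ := exists_mu2 (by omega : 1 ≤ k) h8
  have hμR : (1 : ℝ) ≤ μ := by exact_mod_cast hμ1
  have hk2' : 1 ≤ k ^ 2 := Nat.one_le_pow _ _ (by omega)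
  -- `(k + 1) μ + ν ≤ 2 L`
  have hsum : ((k : ℝ) + 1) * μ + ν ≤ 2 * L := by
    have h1 : 2 ^ ((k + 1) * μ + ν) ≤ n := by
      have h2 : 1 ≤ 10 * k ^ 2 * (μ + ν) := Nat.mul_pos (by omega) (by omega)
      calc 2 ^ ((k + 1) * μ + ν) = 1 * 2 ^ ((k + 1) * μ + ν) := (one_mul _).symm
        _ ≤ 10 * k ^ 2 * (μ + ν) * 2 ^ ((k + 1) * μ + ν) := Nat.mul_le_mul_right _ h2
        _ ≤ n := hμ2
    have h2 : ((2 : ℝ) ^ ((k + 1) * μ + ν)) ≤ n := by exact_mod_cast h1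
    have h3 := Real.log_le_log (by positivity) h2
    rw [Real.log_pow] at h3
    push_cast at h3
    have h5 : (0 : ℝ) ≤ ((k : ℝ) + 1) * μ + ν := by positivity
    nlinarith
  have hν0 : (0 : ℝ) ≤ ν := Nat.cast_nonneg _
  have h4μ : 4 * (μ : ℝ) ≤ ((k : ℝ) + 1) * μ := by nlinarith
  have hμL : (μ : ℝ) ≤ L := by linarith
  -- the size of `2 ^ (k μ)`
  have hM : x0 ^ r ≤ A * L * 2 ^ (k * μ) := by
    have h1 : x0 ≤ A * L * 2 ^ ((k + 1) * μ) := by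
      have h2 : (n : ℝ) < 10 * (k : ℝ) ^ 2 * (μ + 1 + ν) * 2 ^ ((k + 1) * (μ + 1) + ν) := by
        exact_mod_cast hμ3
      have e : (2 : ℝ) ^ ((k + 1) * (μ + 1) + ν) = 2 ^ (k + 1) * 2 ^ ((k + 1) * μ) * 2 ^ ν := by
        rw [← pow_add, ← pow_add]; congr 1; ring
      rw [e] at h2
      rw [hx0, div_le_iff₀ hV]
      refine h2.le.trans ?_
      have h3 : (μ : ℝ) + 1 + ν ≤ 3 * L := by linarith
      calc 10 * (k : ℝ) ^ 2 * (μ + 1 + ν) * (2 ^ (k + 1) * 2 ^ ((k + 1) * μ) * 2 ^ ν)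
          ≤ 10 * (k : ℝ) ^ 2 * (3 * L) * (2 ^ (k + 1) * 2 ^ ((k + 1) * μ) * 2 ^ ν) := by gcongr
        _ = A * L * 2 ^ ((k + 1) * μ) * 2 ^ ν := by rw [hA]; ring
    have h4 : x0 ^ r ≤ (A * L * 2 ^ ((k + 1) * μ)) ^ r := Real.rpow_le_rpow (by linarith) h1 hr0.le
    refine h4.trans ?_
    rw [Real.mul_rpow (by positivity) (by positivity)]
    have h5 : ((2 : ℝ) ^ ((k + 1) * μ)) ^ r = 2 ^ (k * μ) := by
      rw [← Real.rpow_natCast, ← Real.rpow_natCast, ← Real.rpow_mul (by norm_num)]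
      congr 1
      rw [hr]
      push_cast
      field_simp
    have h6 : (A * L) ^ r ≤ A * L := by
      have : 1 ≤ A * L := by nlinarith
      calc (A * L) ^ r ≤ (A * L) ^ (1 : ℝ) := Real.rpow_le_rpow_of_exponent_le this hr1
        _ = A * L := Real.rpow_one _
    rw [h5]
    gcongr
  set M : ℕ := 2 ^ (k * μ) with hMdef
  have hMR : (M : ℝ) = 2 ^ (k * μ) := by rw [hMdef]; push_cast; rfl
  rw [← hMR] at hM
  set D : ℕ := 8192 * (k * μ) ^ 2 * c with hD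
  have hDR : (D : ℝ) = 8192 * ((k : ℝ) * μ) ^ 2 * c := by rw [hD]; push_cast; rfl
  have hDL : (D : ℝ) ≤ 8192 * (k : ℝ) ^ 2 * c * L ^ 2 := by
    rw [hDR, mul_pow]
    calc 8192 * ((k : ℝ) ^ 2 * (μ : ℝ) ^ 2) * c ≤ 8192 * ((k : ℝ) ^ 2 * L ^ 2) * c := by gcongr
      _ = _ := by ring
  have hAL : 0 < A * L := by positivity
  -- `M ≥ 2 D + 2`
  have hMD : 2 * D + 2 ≤ M := by
    have h1 : A * L * (2 * (D : ℝ) + 2) ≤ A * L * M := by
      refine le_trans ?_ (hnB.trans hM)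
      have h2 : A * L * (2 * (D : ℝ) + 2) ≤ A * L * ((16384 * (k : ℝ) ^ 2 * c + 2) * L ^ 3) := by
        have hL2 : 1 ≤ L ^ 2 := one_le_pow₀ hL1
        have h3 : 2 * (D : ℝ) + 2 ≤ (16384 * (k : ℝ) ^ 2 * c + 2) * L ^ 2 := by
          calc 2 * (D : ℝ) + 2 ≤ 2 * (8192 * (k : ℝ) ^ 2 * c * L ^ 2) + 2 * L ^ 2 := by linarith
            _ = _ := by ring
        have h4 : L ^ 2 ≤ L ^ 3 := pow_le_pow_right₀ hL1 (by norm_num)
        have h5 : (16384 * (k : ℝ) ^ 2 * c + 2) * L ^ 2 ≤ (16384 * (k : ℝ) ^ 2 * c + 2) * L ^ 3 := by gcongr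
        gcongr
        linarith
      refine h2.trans ?_
      calc A * L * ((16384 * (k : ℝ) ^ 2 * c + 2) * L ^ 3) = A * (16384 * (k : ℝ) ^ 2 * c + 2) * L ^ 4 := by ring
        _ ≤ _ := le_rfl
    have h6 := le_of_mul_le_mul_left h1 hAL
    exact_mod_cast h6
  have hD0 : 0 < D := by rw [hD]; positivity
  -- the parameter `e`
  set e : ℕ := (M - 1) / D with he
  have he1 : 1 ≤ e := by
    rw [he, Nat.one_le_div_iff hD0]
    omega
  have he2 : D * e + 1 ≤ M := by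
    have := Nat.mul_div_le (M - 1) D
    rw [← he] at this
    omega
  have he3 : M ≤ D * e + D := by
    have := Nat.lt_mul_div_succ (M - 1) hD0
    rw [← he, mul_add, mul_one] at this
    omega
  have heR : (M : ℝ) ≤ 2 * D * e := by
    have h1 : (M : ℝ) ≤ D * e + D := by exact_mod_cast he3
    have h2 : 2 * (D : ℝ) + 2 ≤ M := by exact_mod_cast hMD
    linarith
  refine ⟨μ, e, hμ1, he1, ?_, (size_le2 (by omega) hμ1).trans hμ2, ?_⟩
  · have : 8192 * (k * μ) ^ 2 * e * c = D * e := by rw [hD]; ring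
    rw [this]
    exact he2
  · have h1 : x0 ^ r ≤ A * L * (2 * (8192 * (k : ℝ) ^ 2 * c * L ^ 2) * e) := by
      refine hM.trans ?_
      gcongr
      refine heR.trans ?_
      gcongr
    have h2 : 1 / (A * (16384 * (k : ℝ) ^ 2 * c)) * x0 ^ r / L ^ 3 =
        x0 ^ r / (A * (16384 * (k : ℝ) ^ 2 * c) * L ^ 3) := by
      field_simp
    rw [h2, div_le_iff₀ (by positivity)]
    refine h1.trans (le_of_eq ?_)
    ring


theorem t_OPFIN : S_OPFIN := by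
  classical
  intro hPAR k hk γ hγ
  have hk0 : (0 : ℝ) < k := by exact_mod_cast (by omega : 0 < k)
  have hk1 : (3 : ℝ) ≤ k := by exact_mod_cast hk
  set r : ℝ := (k : ℝ) / (k + 1) with hr
  have hr0 : 0 < r := by rw [hr]; positivity
  have hr1 : r ≤ 1 := by rw [hr, div_le_one (by positivity)]; linarith
  obtain ⟨c, hc1, hcγ⟩ : ∃ c : ℕ, 1 ≤ c ∧ 1 / (c : ℝ) ≤ γ := by
    refine ⟨⌈1 / γ⌉₊ + 1, by omega, ?_⟩
    have h1 : 1 / γ ≤ ((⌈1 / γ⌉₊ + 1 : ℕ) : ℝ) := by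
      push_cast
      linarith [Nat.le_ceil (1 / γ)]
    rw [one_div, inv_le_comm₀ (by positivity) hγ, ← one_div]
    exact h1
  have hcR : (1 : ℝ) ≤ c := by exact_mod_cast hc1
  set A : ℝ := 30 * (k : ℝ) ^ 2 * 2 ^ (k + 1) with hA
  have hA0 : 1 ≤ A := by
    have : (1 : ℝ) ≤ 2 ^ (k + 1) := one_le_pow₀ (by norm_num)
    rw [hA]
    nlinarith
  set c' : ℝ := 1 / (A * (16384 * (k : ℝ) ^ 2 * c)) with hc'
  have hc'0 : 0 < c' := by rw [hc']; positivity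
  set B0 : ℝ := A * (16384 * (k : ℝ) ^ 2 * c + 2) + 2 * (4 * k + 20 * c) / c' with hB0
  have hB1 : A * (16384 * (k : ℝ) ^ 2 * c + 2) ≤ B0 := by
    rw [hB0]
    have : 0 ≤ 2 * (4 * (k : ℝ) + 20 * c) / c' := by positivity
    linarith
  have hB2 : 4 * (k : ℝ) + 20 * c ≤ c' / 2 * B0 := by
    have e1 : c' / 2 * (2 * (4 * (k : ℝ) + 20 * c) / c') = 4 * k + 20 * c := by field_simp
    have e2 : 0 ≤ c' / 2 * (A * (16384 * (k : ℝ) ^ 2 * c + 2)) := by positivity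
    rw [hB0, mul_add, e1]
    linarith
  have hB00 : 0 ≤ B0 := by rw [hB0]; positivity
  set F : ℝ := 2 ^ (k + 1) * c with hF
  have hF1 : 1 ≤ F := by
    have : (1 : ℝ) ≤ 2 ^ (k + 1) := one_le_pow₀ (by norm_num)
    rw [hF]
    nlinarith
  have hF0 : 0 < F := by linarith
  set ρ : ℝ := 1 / ((k : ℝ) + 1) with hρ
  have hρ0 : 0 < ρ := by rw [hρ]; positivity
  have hρ1 : ρ ≤ 1 := by rw [hρ, div_le_one (by positivity)]; linarith
  have hrρ : r = k * ρ := by rw [hr, hρ]; ring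
  have hB01 : 1 ≤ B0 := by
    have h1 : (1 : ℝ) ≤ 16384 * (k : ℝ) ^ 2 * c + 2 := by
      have : (0 : ℝ) ≤ 16384 * (k : ℝ) ^ 2 * c := by positivity
      linarith
    have h2 : 1 * 1 ≤ A * (16384 * (k : ℝ) ^ 2 * c + 2) :=
      mul_le_mul hA0 h1 (by norm_num) (by linarith)
    linarith
  refine ⟨c' / (2 * F), by positivity, fun η hη => ?_⟩
  have hη0 : 0 < ((k : ℝ) - η) * ρ := mul_pos (by linarith) hρ0
  filter_upwards [ev_log' (((k : ℝ) - η) * ρ) hη0 (F * B0), eventually_ge_atTop 4] with n hnB hn4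
  intro B hB1' hBn
  have hnR : (4 : ℝ) ≤ n := by exact_mod_cast hn4
  have hn0 : (0 : ℝ) < n := by linarith
  have hBR : (1 : ℝ) ≤ B := by exact_mod_cast hB1'
  set L : ℝ := Real.log n with hL
  have hL1 : 1 ≤ L := by
    rw [hL, Real.le_log_iff_exp_le (by linarith)]
    have := Real.exp_one_lt_d9
    linarith
  -- the number of instances
  have hex : ∃ ν : ℕ, c * (2 * B) ≤ 2 ^ (k * ν) := by
    refine ⟨c * (2 * B), ?_⟩
    calc c * (2 * B) ≤ 2 ^ (c * (2 * B)) := (Nat.lt_two_pow_self).le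
      _ ≤ 2 ^ (k * (c * (2 * B))) :=
        Nat.pow_le_pow_right (by norm_num) (Nat.le_mul_of_pos_left _ (by omega))
  obtain ⟨ν, hν1, hν2⟩ : ∃ ν : ℕ, c * (2 * B) ≤ 2 ^ (k * ν) ∧
      2 ^ (k * ν) ≤ 2 ^ k * (c * (2 * B)) := by
    refine ⟨Nat.find hex, Nat.find_spec hex, ?_⟩
    rcases Nat.eq_zero_or_pos (Nat.find hex) with h0 | h0
    · rw [h0, mul_zero, pow_zero]
      exact Nat.mul_pos (by positivity) (Nat.mul_pos (by omega) (by omega))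
    · obtain ⟨j, hj⟩ : ∃ j, Nat.find hex = j + 1 := ⟨Nat.find hex - 1, by omega⟩
      have h1 := Nat.find_min hex (m := j) (by omega)
      push Not at h1
      rw [hj, mul_add, mul_one, pow_add, mul_comm]
      exact Nat.mul_le_mul_left _ h1.le
  set x0 : ℝ := (n : ℝ) / 2 ^ ν with hx0
  have hV : (0 : ℝ) < 2 ^ ν := by positivity
  have hx00 : 0 < x0 := by rw [hx0]; positivity
  set y : ℝ := (n : ℝ) ^ k / B with hy
  have hyn : (n : ℝ) ^ ((k : ℝ) - η) ≤ y := by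
    rw [hy, le_div_iff₀ (by linarith), Real.rpow_sub hn0, Real.rpow_natCast,
      div_mul_eq_mul_div, div_le_iff₀ (by positivity)]
    gcongr
  have hy0 : 0 < y := lt_of_lt_of_le (by positivity) hyn
  have hxk : x0 ^ r = (x0 ^ k) ^ ρ := by
    rw [hrρ, Real.rpow_mul hx00.le, Real.rpow_natCast]
  have hyx : y ≤ x0 ^ k * F := by
    have h1 : ((2 : ℝ) ^ ν) ^ k ≤ F * B := by
      have h2 : ((2 ^ (k * ν) : ℕ) : ℝ) ≤ ((2 ^ k * (c * (2 * B)) : ℕ) : ℝ) := by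
        exact_mod_cast hν2
      push_cast at h2
      calc ((2 : ℝ) ^ ν) ^ k = 2 ^ (k * ν) := by rw [← pow_mul, mul_comm]
        _ ≤ 2 ^ k * (c * (2 * B)) := h2
        _ = F * B := by rw [hF, pow_succ]; ring
    rw [hy, hx0, div_pow, div_mul_eq_mul_div, div_le_div_iff₀ (by linarith) (by positivity)]
    calc (n : ℝ) ^ k * (2 ^ ν) ^ k ≤ (n : ℝ) ^ k * (F * B) := by gcongr
      _ = _ := by ring
  have hxy : y ^ ρ ≤ F * x0 ^ r := by
    calc y ^ ρ ≤ (x0 ^ k * F) ^ ρ := Real.rpow_le_rpow hy0.le hyx hρ0.le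
      _ = (x0 ^ k) ^ ρ * F ^ ρ := Real.mul_rpow (by positivity) hF0.le
      _ = x0 ^ r * F ^ ρ := by rw [← hxk]
      _ ≤ x0 ^ r * F ^ (1 : ℝ) := by
        gcongr
      _ = _ := by rw [Real.rpow_one, mul_comm]
  have hNB : B0 * L ^ 4 ≤ x0 ^ r := by
    have h1 : (n : ℝ) ^ (((k : ℝ) - η) * ρ) ≤ y ^ ρ := by
      rw [Real.rpow_mul hn0.le]
      exact Real.rpow_le_rpow (by positivity) hyn hρ0.le
    have h2 : F * (B0 * L ^ 4) ≤ F * x0 ^ r := by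
      calc F * (B0 * L ^ 4) = F * B0 * L ^ 4 := by ring
        _ ≤ _ := hnB
        _ ≤ _ := h1
        _ ≤ _ := hxy
    exact le_of_mul_le_mul_left h2 hF0
  have hx1 : 1 ≤ x0 := by
    by_contra hcon
    push Not at hcon
    have h1 : x0 ^ r < 1 := Real.rpow_lt_one hx00.le hcon hr0
    have h2 : 1 ≤ B0 * L ^ 4 := by
      have : 1 ≤ L ^ 4 := one_le_pow₀ hL1
      nlinarith
    linarith
  obtain ⟨μ, e, hμ1, he1, h1, h2, h3⟩ := core2 k c ν hk hc1 A hA n x0 hx0 hx1 hn4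
    ((mul_le_mul_of_nonneg_right hB1 (by positivity)).trans hNB)
  obtain ⟨Λ, i1, i2, D, hD⟩ := hPAR k μ ν n e c B hk hμ1 he1 hc1 hB1' hν1 h1 h2
  refine ⟨Λ, i1, i2, D, fun C hC hm => ?_⟩
  have h4 := hD C hC ?_
  · -- the end
    have h5 : ({l | C.Acc (D l) ↔ Sat (D l)}.ncard) = (univ.filter (fun l => (C.Acc (D l) ↔ Sat (D l)))).card := by
      rw [← Set.ncard_coe_finset]
      congr 1
      ext l
      simp
    rw [h5]
    have h6 : 2 * (c : ℝ) * ((univ.filter (fun l => (C.Acc (D l) ↔ Sat (D l)))).card : ℝ) <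
        (c + 2) * (Fintype.card Λ : ℝ) := by exact_mod_cast h4
    have h7 : (0 : ℝ) ≤ (Fintype.card Λ : ℝ) := Nat.cast_nonneg _
    have h8 : ((univ.filter (fun l => (C.Acc (D l) ↔ Sat (D l)))).card : ℝ) <
        (1 / 2 + 1 / c) * (Fintype.card Λ : ℝ) := by
      have h9 : (1 / 2 + 1 / (c : ℝ)) * (Fintype.card Λ : ℝ) = ((c + 2) * (Fintype.card Λ : ℝ)) / (2 * c) := by
        field_simp
      rw [h9, lt_div_iff₀ (by positivity)]
      linarith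
    refine h8.trans_le ?_
    gcongr
  · -- the size
    set X : ℝ := c' / (2 * F) * y ^ ρ / L ^ 3 with hX
    set Y : ℝ := c' / 2 * x0 ^ r / L ^ 3 with hY
    have hL3 : 0 < L ^ 3 := by positivity
    have hXY : X ≤ Y := by
      rw [hX, hY]
      apply div_le_div_of_nonneg_right _ hL3.le
      calc c' / (2 * F) * y ^ ρ ≤ c' / (2 * F) * (F * x0 ^ r) := by gcongr
        _ = c' / 2 * x0 ^ r := by field_simp
    have hYe : 2 * Y ≤ e := by
      have : 2 * Y = c' * x0 ^ r / L ^ 3 := by rw [hY]; ring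
      rw [this]
      exact h3
    have hYL : (4 * (k : ℝ) + 20 * c) * L ≤ Y := by
      rw [hY, le_div_iff₀ hL3]
      calc (4 * (k : ℝ) + 20 * c) * L * L ^ 3 = (4 * (k : ℝ) + 20 * c) * L ^ 4 := by ring
        _ ≤ c' / 2 * B0 * L ^ 4 := by gcongr
        _ = c' / 2 * (B0 * L ^ 4) := by ring
        _ ≤ c' / 2 * x0 ^ r := by gcongr
    have hY20 : 20 * (c : ℝ) ≤ Y := by nlinarith
    have hY1 : (1 : ℝ) ≤ Y := by linarith
    have h2Y : 1 ≤ (2 : ℝ) ^ Y := Real.one_le_rpow (by norm_num) (by linarith)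
    have hl2 : (0.5 : ℝ) ≤ Real.log 2 := by linarith [Real.log_two_gt_d9]
    -- the number of clauses
    have hQ : (Fintype.card (Clause n k) : ℝ) + 2 ≤ 2 ^ Y := by
      have h1 : (Fintype.card (Clause n k) : ℝ) ≤ (2 * n + 1) ^ k := by exact_mod_cast card_clause n k
      have h2 : ((2 : ℝ) * n + 1) ^ k + 2 ≤ 2 * (n ^ 2 : ℝ) ^ k := by
        have h4 : ((2 : ℝ) * n + 1) ^ k ≤ (n ^ 2) ^ k := by
          apply pow_le_pow_left₀ (by positivity)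
          nlinarith
        have h5 : (2 : ℝ) ≤ (n ^ 2) ^ k := by
          calc (2 : ℝ) ≤ n ^ 2 := by nlinarith
            _ = (n ^ 2) ^ 1 := (pow_one _).symm
            _ ≤ (n ^ 2) ^ k := pow_le_pow_right₀ (by nlinarith) (by omega)
        linarith
      have h6 : ((n : ℝ) ^ 2) ^ k = Real.exp (2 * k * L) := by
        rw [← pow_mul, hL, mul_comm (2 * (k : ℝ)), Real.exp_mul, Real.exp_log (by linarith)]
        rw [show (2 * (k : ℝ)) = ((2 * k : ℕ) : ℝ) by push_cast; ring, Real.rpow_natCast]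
      have h7 : (2 : ℝ) ^ Y = Real.exp (Real.log 2 * Y) := by
        rw [Real.rpow_def_of_pos (by norm_num)]
      have h8 : (2 : ℝ) ≤ Real.exp 1 := by
        have := Real.add_one_le_exp (1 : ℝ)
        linarith
      have h9 : 2 * (n ^ 2 : ℝ) ^ k ≤ Real.exp (1 + 2 * k * L) := by
        rw [h6, Real.exp_add]
        gcongr
      rw [h7]
      refine (by linarith : (Fintype.card (Clause n k) : ℝ) + 2 ≤ Real.exp (1 + 2 * k * L)).trans ?_
      apply Real.exp_le_exp.mpr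
      have h10 : 1 + 2 * k * L ≤ 0.5 * ((4 * (k : ℝ) + 20 * c) * L) := by nlinarith
      nlinarith
    have hm' : (C.m : ℝ) < 2 ^ Y := hm.trans_le (Real.rpow_le_rpow_of_exponent_le (by norm_num) hXY)
    have h10 : 4 * (c : ℝ) * ((C.m + 1) * (C.m + Fintype.card (Clause n k) + 2) + 1) ≤ 4 ^ (e : ℝ) := by
      have e1 : (4 : ℝ) ^ Y = 2 ^ Y * 2 ^ Y := by
        rw [show (4 : ℝ) = 2 * 2 by norm_num, Real.mul_rpow (by norm_num) (by norm_num)]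
      have e2 : (4 : ℝ) ^ (2 * Y) ≤ 4 ^ (e : ℝ) := Real.rpow_le_rpow_of_exponent_le (by norm_num) hYe
      have e3 : (4 : ℝ) ^ (2 * Y) = 4 ^ Y * 4 ^ Y := by
        rw [← Real.rpow_add (by norm_num)]
        congr 1
        ring
      have e4 : ((C.m : ℝ) + 1) * (C.m + Fintype.card (Clause n k) + 2) ≤ (2 * 2 ^ Y) * (2 * 2 ^ Y) := by
        have hm0 : (0 : ℝ) ≤ C.m := Nat.cast_nonneg _
        have hq0 : (0 : ℝ) ≤ (Fintype.card (Clause n k) : ℝ) := Nat.cast_nonneg _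
        apply mul_le_mul (by linarith) (by linarith) (by positivity) (by positivity)
      have e5 : ((C.m : ℝ) + 1) * (C.m + Fintype.card (Clause n k) + 2) + 1 ≤ 5 * 4 ^ Y := by
        rw [e1]
        nlinarith
      have e6 : 20 * (c : ℝ) ≤ 4 ^ Y := by
        have : Y ≤ (4 : ℝ) ^ Y := by
          have h1 : (4 : ℝ) ^ Y = Real.exp (Real.log 4 * Y) := by
            rw [Real.rpow_def_of_pos (by norm_num)]
          rw [h1]
          have h2 := Real.add_one_le_exp (Real.log 4 * Y)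
          have h3 : 1 ≤ Real.log 4 := by
            rw [show (4 : ℝ) = 2 ^ 2 by norm_num, Real.log_pow]
            push_cast
            linarith
          nlinarith
        linarith
      have h4Y : (0 : ℝ) < 4 ^ Y := by positivity
      calc 4 * (c : ℝ) * ((C.m + 1) * (C.m + Fintype.card (Clause n k) + 2) + 1) ≤ 4 * c * (5 * 4 ^ Y) := by gcongr
        _ = 20 * c * 4 ^ Y := by ring
        _ ≤ 4 ^ Y * 4 ^ Y := by gcongr
        _ = 4 ^ (2 * Y) := e3.symm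
        _ ≤ _ := e2
    rw [Real.rpow_natCast] at h10
    exact_mod_cast h10

end Pool.Agent.J4H64.MO
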